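import Pool.Agent.PVD.StmtsL

/-! MP_e25c73_gt, frozen negation S14126, block L, row EXP: first order expansion of `LP`. -/

set_option autoImplicit false
open MeasureTheory

namespace Pool.Agent.PVD.L.H77

/-- `q ≤ T` forces `q < 1`. -/
theorem q_lt {q : ℝ} (h0 : 0 < q) (h : q ≤ TT q) : q < 1 := by
  by_contra hcon
  have h1 : 1 ≤ q := not_lt.1 hcon
  have h2 : Real.log (1 / q) ≤ 0 := by
    apply Real.log_nonpos (by positivity)
    rw [div_le_one h0]; exact h1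
  have h3 : TT q ≤ 0 := by
    unfold TT
    exact mul_nonpos_of_nonneg_of_nonpos h0.le h2
  linarith

/-- `|(1+q) e^u - 1| ≤ 5 q`. -/
theorem kap_near {q u : ℝ} (h0 : 0 < q) (h1 : q < 1) (hu : |u| ≤ q) :
    |(1 + q) * Real.exp u - 1| ≤ 5 * q := by
  have h2 : |Real.exp u - 1 - u| ≤ u ^ 2 := Real.abs_exp_sub_one_sub_id_le (by linarith)
  have h3 : u ^ 2 ≤ q := by
    have h4 : u ^ 2 = |u| ^ 2 := (sq_abs u).symm
    rw [h4]
    nlinarith [abs_nonneg u]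
  obtain ⟨h5, h6⟩ := abs_le.1 hu
  obtain ⟨h7, h8⟩ := abs_le.1 h2
  rw [abs_le]
  have h9 : Real.exp u ≤ 1 + 2 * q := by linarith
  have h10 : 1 - 2 * q ≤ Real.exp u := by linarith
  constructor <;> nlinarith

/-- The algebra of the expansion. -/
theorem core (q T C1 C2 C3 C4 s h c a J lm H0 H1 L1 κ τ x Q : ℝ) (hC1 : 1 ≤ C1)
    (hC2 : 1 ≤ C2) (hC3 : 1 ≤ C3) (hC4 : 1 ≤ C4) (hq0 : 0 < q) (hT0 : 0 < T) (hTq : q ≤ T)
    (s0 : T ≤ 1 / 2) (s1 : C1 * T ≤ 1 / 2) (s1' : (C1 + 1) * T ≤ 1 / 2)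
    (s2 : 2 * C2 * T ≤ 1 / 2) (s3 : 2 * C3 * T ≤ 1 / 2) (hs0 : 0 < s) (hsT : s ≤ C1 * T)
    (hh0 : 0 ≤ h) (w2 : h ≤ 1) (w3 : 0 ≤ c) (w4 : c ≤ 1) (w5 : 0 ≤ a) (w6 : a ≤ 1)
    (w7 : |J| ≤ 1) (hτ0 : 0 ≤ τ) (hτ1 : τ ≤ 1) (hx : x = s * (c - h) - T * τ)
    (hQ : Q = q + T ^ 2) (hδ : |lm - 1 - x| ≤ C2 * Q) (hε : |L1 - (a - s * J)| ≤ C3 * Q)
    (hk : |κ - 1| ≤ 5 * q) (hK0 : |q * H0 - T * τ| ≤ C4 * q)
    (hK1 : |H1 - (a - T * τ ^ 2)| ≤ C4 * q) :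
    |(H1 - q * H0) - lm * (κ * L1) -
      (-(T * τ * (1 + τ)) - s * (c - h) * a + T * τ * a + s * J)| ≤
      (2 * C4 + (C1 + 1) * C1 + 2 * C2 + 3 * C3 + 60) * Q := by
  have hsJ1 : |s * J| ≤ C1 * T := by
    rw [abs_mul, abs_of_pos hs0]
    calc s * |J| ≤ s * 1 := mul_le_mul_of_nonneg_left w7 hs0.le
      _ ≤ C1 * T := by linarith
  have hX : |x| ≤ (C1 + 1) * T := by
    have e1 : |s * (c - h)| ≤ C1 * T := by
      rw [abs_mul, abs_of_pos hs0]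
      have : |c - h| ≤ 1 := abs_le.2 ⟨by linarith, by linarith⟩
      calc s * |c - h| ≤ s * 1 := mul_le_mul_of_nonneg_left this hs0.le
        _ ≤ C1 * T := by linarith
    have e2 : |T * τ| ≤ T := by
      rw [abs_of_nonneg (mul_nonneg hT0.le hτ0)]
      calc T * τ ≤ T * 1 := mul_le_mul_of_nonneg_left hτ1 hT0.le
        _ = T := mul_one T
    rw [hx]
    calc |s * (c - h) - T * τ| ≤ |s * (c - h)| + |T * τ| := abs_sub _ _
      _ ≤ C1 * T + T := add_le_add e1 e2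
      _ = (C1 + 1) * T := by ring
  have hT2 : T ^ 2 ≤ T := by nlinarith
  have hQT : Q ≤ 2 * T := by linarith
  have hQ0 : 0 ≤ Q := by rw [hQ]; positivity
  have haJ : |a - s * J| ≤ 2 := by
    calc |a - s * J| ≤ |a| + |s * J| := abs_sub _ _
      _ ≤ 1 + 1 / 2 := add_le_add (by rw [abs_of_nonneg w5]; exact w6) (hsJ1.trans s1)
      _ ≤ 2 := by norm_num
  have q2 : C2 * Q ≤ 1 / 2 := by
    have : C2 * Q ≤ C2 * (2 * T) := mul_le_mul_of_nonneg_left hQT (by linarith)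
    linarith
  have q3 : C3 * Q ≤ 1 / 2 := by
    have : C3 * Q ≤ C3 * (2 * T) := mul_le_mul_of_nonneg_left hQT (by linarith)
    linarith
  have hlm3 : |lm| ≤ 3 := by
    have e1 : lm = (lm - 1 - x) + 1 + x := by ring
    rw [e1]
    calc |(lm - 1 - x) + 1 + x| ≤ |lm - 1 - x| + |(1 : ℝ)| + |x| := abs_add_three _ _ _
      _ ≤ C2 * Q + 1 + (C1 + 1) * T := by rw [abs_one]; linarith
      _ ≤ 3 := by linarith
  have hL3 : |L1| ≤ 3 := by
    have e1 : L1 = (L1 - (a - s * J)) + (a - s * J) := by ring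
    rw [e1]
    calc |(L1 - (a - s * J)) + (a - s * J)| ≤ |L1 - (a - s * J)| + |a - s * J| := abs_add_le _ _
      _ ≤ C3 * Q + 2 := add_le_add hε haJ
      _ ≤ 3 := by linarith
  have hid : (H1 - q * H0) - lm * (κ * L1) -
      (-(T * τ * (1 + τ)) - s * (c - h) * a + T * τ * a + s * J) =
      (H1 - (a - T * τ ^ 2)) - (q * H0 - T * τ) + x * (s * J) - (lm - 1 - x) * (a - s * J)
        - lm * ((κ - 1) * L1 + (L1 - (a - s * J))) := by
    rw [hx]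
    ring
  rw [hid]
  have b3 : |x * (s * J)| ≤ (C1 + 1) * C1 * T ^ 2 := by
    rw [abs_mul]
    calc |x| * |s * J| ≤ ((C1 + 1) * T) * (C1 * T) :=
          mul_le_mul hX hsJ1 (abs_nonneg _) (by positivity)
      _ = (C1 + 1) * C1 * T ^ 2 := by ring
  have b4 : |(lm - 1 - x) * (a - s * J)| ≤ 2 * C2 * Q := by
    rw [abs_mul]
    calc |lm - 1 - x| * |a - s * J| ≤ (C2 * Q) * 2 :=
          mul_le_mul hδ haJ (abs_nonneg _) (by positivity)
      _ = 2 * C2 * Q := by ring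
  have b5 : |lm * ((κ - 1) * L1 + (L1 - (a - s * J)))| ≤ 45 * q + 3 * C3 * Q := by
    rw [abs_mul]
    have e1 : |(κ - 1) * L1 + (L1 - (a - s * J))| ≤ 15 * q + C3 * Q := by
      calc |(κ - 1) * L1 + (L1 - (a - s * J))| ≤ |(κ - 1) * L1| + |L1 - (a - s * J)| :=
            abs_add_le _ _
        _ ≤ (5 * q) * 3 + C3 * Q := by
            rw [abs_mul]
            exact add_le_add (mul_le_mul hk hL3 (abs_nonneg _) (by positivity)) hε
        _ = 15 * q + C3 * Q := by ring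
    calc |lm| * |(κ - 1) * L1 + (L1 - (a - s * J))| ≤ 3 * (15 * q + C3 * Q) :=
          mul_le_mul hlm3 e1 (abs_nonneg _) (by norm_num)
      _ = 45 * q + 3 * C3 * Q := by ring
  have hqQ : q ≤ Q := by
    have : 0 ≤ T ^ 2 := sq_nonneg T
    linarith
  have hTQ : T ^ 2 ≤ Q := by linarith
  have t1 := abs_sub ((H1 - (a - T * τ ^ 2)) - (q * H0 - T * τ) + x * (s * J) -
    (lm - 1 - x) * (a - s * J)) (lm * ((κ - 1) * L1 + (L1 - (a - s * J))))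
  have t2 := abs_sub ((H1 - (a - T * τ ^ 2)) - (q * H0 - T * τ) + x * (s * J))
    ((lm - 1 - x) * (a - s * J))
  have t3 := abs_add_le ((H1 - (a - T * τ ^ 2)) - (q * H0 - T * τ)) (x * (s * J))
  have t4 := abs_sub (H1 - (a - T * τ ^ 2)) (q * H0 - T * τ)
  have t5 : C4 * q ≤ C4 * Q := mul_le_mul_of_nonneg_left hqQ (by linarith)
  have t6 : (C1 + 1) * C1 * T ^ 2 ≤ (C1 + 1) * C1 * Q :=
    mul_le_mul_of_nonneg_left hTQ (by positivity)
  have t7 : (2 * C4 + (C1 + 1) * C1 + 2 * C2 + 3 * C3 + 60) * Q =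
      C4 * Q + C4 * Q + (C1 + 1) * C1 * Q + 2 * C2 * Q + 3 * C3 * Q + 60 * Q := by ring
  rw [t7]
  linarith

theorem row (hrem : RemStmt) (hexl : ExlStmt) (hexi : ExiStmt) (hexk : ExkStmt)
    (hwbd : WbdStmt) : ExpStmt := by
  intro e he0 he1
  obtain ⟨C1, hC1, h1⟩ := hrem e he0 he1
  obtain ⟨C2, hC2, h2⟩ := hexl e he0 he1
  obtain ⟨C3, hC3, h3⟩ := hexi e he0 he1
  obtain ⟨C4, hC4, h4⟩ := hexk e he0 he1
  refine ⟨2 * C4 + (C1 + 1) * C1 + 2 * C2 + 3 * C3 + 60, by nlinarith, ?_⟩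
  intro q sg y u1 u2 v hp hT
  have hq0 := hp.q0
  have hTq := hp.qT
  have hq1 := q_lt hq0 hTq
  have hT0 : 0 < TT q := hq0.trans_le hTq
  have hC11 : (C1 + 1) ≤ (C1 + 1) * C1 := by nlinarith
  have small : ∀ c : ℝ, c ≤ 2 * C4 + (C1 + 1) * C1 + 2 * C2 + 3 * C3 + 60 →
      c * TT q ≤ 1 / 2 := fun c hc =>
    (mul_le_mul_of_nonneg_right hc hT0.le).trans hT
  have s1 : C1 * TT q ≤ 1 / 2 := small _ (by linarith)
  have s1' : (C1 + 1) * TT q ≤ 1 / 2 := small _ (by linarith)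
  have s2 : 2 * C2 * TT q ≤ 1 / 2 := small _ (by linarith)
  have s3 : 2 * C3 * TT q ≤ 1 / 2 := small _ (by linarith)
  have s2' : C2 * TT q ≤ 1 / 2 := small _ (by linarith)
  have s3' : C3 * TT q ≤ 1 / 2 := small _ (by linarith)
  have s0 : TT q ≤ 1 / 2 := by
    have := small 1 (by linarith)
    linarith
  obtain ⟨hs0, -, hsT, -⟩ := h1 q sg y u1 u2 v hp s1
  obtain ⟨-, hlam⟩ := h2 q sg y u1 u2 v hp s2'
  obtain ⟨-, hH⟩ := h3 q sg y u1 u2 v hp s3'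
  obtain ⟨hK0, hK1⟩ := h4 q y hq0 hTq hp.y0 hp.y1
  obtain ⟨w1, w2, w3, w4, w5, w6, w7, w8, w9, w10⟩ := hwbd e y he0 he1 hp.y0 hp.y1
  have hy0 : 0 < y := by linarith [hp.y0]
  have hsg0 : 0 < sg := by linarith [hp.s0]
  have hk := kap_near hq0 hq1 hp.u1b
  have hss : ss e q sg y = sg * TT q * ww e y := rfl
  have hτ0 : 0 ≤ e / y := by positivity
  have hτ1 : e / y ≤ 1 := by
    rw [div_le_one hy0]; linarith [hp.y0]
  have hh0 : 0 ≤ hh e y := by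
    have : 0 ≤ e ^ 2 / 2 := by positivity
    linarith
  have hsw : ss e q sg y * (hh e y + cc e y) / sg = TT q * (e / y) := by
    rw [hss, ← w10, div_eq_iff hsg0.ne']
    ring
  have hbr : ss e q sg y * br e sg y = -(TT q * (e / y) * (1 + e / y)) -
      ss e q sg y * (cc e y - hh e y) * aa e y + TT q * (e / y) * aa e y +
      ss e q sg y * JJ e y := by
    rw [← hsw]
    unfold br
    ring
  have hLP : LP e q sg y u1 u2 v = (Hm e (muK e q y) 1 - q * Hm e (muK e q y) 0) -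
      lam e q sg y u1 u2 v * ((1 + q) * Real.exp u1 * Hm e (nuL e q sg y u1 u2) 1) := rfl
  rw [hbr, hLP]
  exact core q (TT q) C1 C2 C3 C4 (ss e q sg y) (hh e y) (cc e y) (aa e y) (JJ e y)
    (lam e q sg y u1 u2 v) (Hm e (muK e q y) 0) (Hm e (muK e q y) 1)
    (Hm e (nuL e q sg y u1 u2) 1) ((1 + q) * Real.exp u1) (e / y)
    (ss e q sg y * (cc e y - hh e y) - TT q * (e / y)) (q + TT q ^ 2) hC1 hC2 hC3 hC4 hq0 hT0 hTq
    s0 s1 s1' s2 s3 hs0 hsT hh0 w2 w3 w4 w5 w6 w7 hτ0 hτ1 rfl rfl hlam hH hk hK0 hK1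

end Pool.Agent.PVD.L.H77
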