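import Pool.Agent.PVD.StmtsM2

/-! MP_e25c73_gt, frozen negation S14126, block M2, row DUA: identification of the limit. -/

set_option autoImplicit false
open MeasureTheory Filter Topology Set

namespace Pool.Agent.PVD.M.H77

open Pool.Agent.PVD.L

theorem ii_of_bdd {g : ℝ → ℝ} (hm : Measurable g) {C : ℝ}
    (hb : ∀ t, 0 < t → t ≤ 1 → |g t| ≤ C) : IntervalIntegrable g volume 0 1 := by
  rw [intervalIntegrable_iff_integrableOn_Ioc_of_le zero_le_one]
  refine Measure.integrableOn_of_bounded (M := C) (by simp) hm.aestronglyMeasurable ?_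
  filter_upwards [ae_restrict_mem measurableSet_Ioc] with t ht
  rw [Real.norm_eq_abs]
  exact hb t ht.1 ht.2

/-- nonnegative dual vectors -/
structure NN (A : Finset (Fin 4)) (m : Fin 4 → ℝ) : Prop where
  nn : ∀ i, 0 ≤ m i
  off : ∀ i ∉ A, m i = 0

theorem PA.nn {A : Finset (Fin 4)} {m : Fin 4 → ℝ} (h : PA A m) : NN A m where
  nn i := by
    by_cases hi : i ∈ A
    · exact (h.1 i hi).le
    · exact (h.2 i hi).ge
  off := h.2

section fixed

variable {e : ℝ} (h0 : 0 < e) (h1 : e < 1)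
include h0 h1

theorem fm_ge {A : Finset (Fin 4)} {m : Fin 4 → ℝ} (h : NN A m) {t : ℝ} (ht0 : 0 ≤ t)
    (ht1 : t ≤ 1) (i : Fin 4) : m i * cl e i t ≤ fm e m t := by
  unfold fm
  exact Finset.single_le_sum (f := fun i => m i * cl e i t)
    (fun j _ => mul_nonneg (h.nn j) (cl_nonneg h0 h1 ht0 ht1 j)) (Finset.mem_univ i)

theorem fm_nonneg {A : Finset (Fin 4)} {m : Fin 4 → ℝ} (h : NN A m) {t : ℝ} (ht0 : 0 ≤ t)
    (ht1 : t ≤ 1) : 0 ≤ fm e m t :=
  (mul_nonneg (h.nn 1) ht0).trans (fm_ge h0 h1 h ht0 ht1 1)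

theorem fm_pos {A : Finset (Fin 4)} {m : Fin 4 → ℝ} (hA : (1 : Fin 4) ∈ A) (h : PA A m) {t : ℝ}
    (ht0 : 0 < t) (ht1 : t ≤ 1) : 0 < fm e m t :=
  (mul_pos (h.1 1 hA) ht0).trans_le (fm_ge h0 h1 (PA.nn h) ht0.le ht1 1)

omit h0 h1 in
theorem fm_meas (m : Fin 4 → ℝ) : Measurable (fm e m) := (fm_cont e m).measurable

omit h0 h1 in
theorem cl_meas (i : Fin 4) : Measurable (cl e i) := (cl_cont e i).measurable

theorem cl_le_one {t : ℝ} (ht0 : 0 ≤ t) (ht1 : t ≤ 1) (i : Fin 4) : cl e i t ≤ 1 := by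
  by_cases hi : i = 0
  · subst hi
    rw [cl_zero]
    linarith
  · exact (cl_le h0 h1 ht0 i hi).trans ht1

theorem int_cl {A : Finset (Fin 4)} {m : Fin 4 → ℝ} (hA : (1 : Fin 4) ∈ A) (h : PA A m)
    {i : Fin 4} (hi : i ∈ A) : IntervalIntegrable (fun t => cl e i t / fm e m t) volume 0 1 := by
  refine ii_of_bdd (C := 1 / m i) ((cl_meas i).div (fm_meas m)) fun t ht0 ht1 => ?_
  have hp := fm_pos h0 h1 hA h ht0 ht1
  have hc := cl_nonneg h0 h1 ht0.le ht1 i
  have hm := h.1 i hi
  rw [abs_of_nonneg (div_nonneg hc hp.le), div_le_div_iff₀ hp hm, one_mul]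
  have := fm_ge h0 h1 (PA.nn h) ht0.le ht1 i
  linarith

theorem int_term {A : Finset (Fin 4)} {m q : Fin 4 → ℝ} (hA : (1 : Fin 4) ∈ A) (h : PA A m)
    (hq : NN A q) (i : Fin 4) :
    IntervalIntegrable (fun t => q i * (cl e i t / fm e m t)) volume 0 1 := by
  by_cases hi : i ∈ A
  · exact (int_cl h0 h1 hA h hi).const_mul (q i)
  · rw [hq.off i hi]
    simp

omit h0 h1 in
theorem quo_eq (m q : Fin 4 → ℝ) (t : ℝ) :
    fm e q t / fm e m t = ∑ i, q i * (cl e i t / fm e m t) := by
  unfold fm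
  rw [Finset.sum_div]
  refine Finset.sum_congr rfl fun i _ => ?_
  rw [mul_div_assoc]

theorem int_quo {A : Finset (Fin 4)} {m q : Fin 4 → ℝ} (hA : (1 : Fin 4) ∈ A) (h : PA A m)
    (hq : NN A q) : IntervalIntegrable (fun t => fm e q t / fm e m t) volume 0 1 := by
  have e1 : (fun t => fm e q t / fm e m t) = fun t => ∑ i, q i * (cl e i t / fm e m t) :=
    funext fun t => quo_eq m q t
  rw [e1]
  have h2 := IntervalIntegrable.sum (f := fun (i : Fin 4) t => q i * (cl e i t / fm e m t))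
    Finset.univ fun i _ => int_term h0 h1 hA h hq i
  refine h2.congr ?_
  intro t _
  simp

theorem quo_int {A : Finset (Fin 4)} {m q : Fin 4 → ℝ} (hA : (1 : Fin 4) ∈ A) (h : PA A m)
    (hq : NN A q) : ∫ t in (0:ℝ)..1, fm e q t / fm e m t = ∑ i, q i * Hm e m i := by
  have e1 : (fun t => fm e q t / fm e m t) = fun t => ∑ i, q i * (cl e i t / fm e m t) :=
    funext fun t => quo_eq m q t
  rw [e1, intervalIntegral.integral_finsetSum fun i _ => int_term h0 h1 hA h hq i]
  refine Finset.sum_congr rfl fun i _ => ?_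
  rw [intervalIntegral.integral_const_mul]
  rfl

theorem int_log {A : Finset (Fin 4)} {m : Fin 4 → ℝ} (hA : (1 : Fin 4) ∈ A) (h : PA A m) :
    IntervalIntegrable (fun t => Real.log (fm e m t)) volume 0 1 := by
  have hg : IntervalIntegrable
      (fun t => |Real.log (m 1)| + |Real.log t| + |Real.log (∑ i, m i)|) volume 0 1 := by
    refine IntervalIntegrable.add (IntervalIntegrable.add ?_ ?_) ?_
    · exact intervalIntegrable_const
    · exact intervalIntegral.intervalIntegrable_log'.abs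
    · exact intervalIntegrable_const
  refine hg.mono_fun' (Real.measurable_log.comp (fm_meas m)).aestronglyMeasurable ?_
  rw [uIoc_of_le zero_le_one]
  filter_upwards [ae_restrict_mem measurableSet_Ioc] with t ht
  rw [Real.norm_eq_abs]
  have hp := fm_pos h0 h1 hA h ht.1 ht.2
  have hm1 := h.1 1 hA
  have hl : m 1 * t ≤ fm e m t := fm_ge h0 h1 (PA.nn h) ht.1.le ht.2 1
  have hu : fm e m t ≤ ∑ i, m i := by
    unfold fm
    refine Finset.sum_le_sum fun i _ => ?_
    exact mul_le_of_le_one_right ((PA.nn h).nn i) (cl_le_one h0 h1 ht.1.le ht.2 i)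
  have l1 : Real.log (m 1) + Real.log t ≤ Real.log (fm e m t) := by
    rw [← Real.log_mul hm1.ne' ht.1.ne']
    exact Real.log_le_log (mul_pos hm1 ht.1) hl
  have l2 : Real.log (fm e m t) ≤ Real.log (∑ i, m i) := Real.log_le_log hp hu
  rw [abs_le]
  constructor
  · have := neg_abs_le (Real.log (m 1))
    have := neg_abs_le (Real.log t)
    have := abs_nonneg (Real.log (∑ i, m i))
    linarith
  · have := le_abs_self (Real.log (∑ i, m i))
    have := abs_nonneg (Real.log (m 1))
    have := abs_nonneg (Real.log t)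
    linarith

end fixed

theorem fm_inj {e : ℝ} (h0 : 0 < e) (h1 : e < 1 / 2) {m p : Fin 4 → ℝ}
    (h : ∀ t ∈ Icc (0 : ℝ) 1, fm e p t = fm e m t) : p = m := by
  have a0 := h 0 ⟨le_refl _, zero_le_one⟩
  have a1 := h 1 ⟨zero_le_one, le_refl _⟩
  have a2 := h e ⟨h0.le, by linarith⟩
  have a3 := h (1 - e) ⟨by linarith, by linarith⟩
  simp only [fm_eq] at a0 a1 a2 a3
  rw [min_eq_left h0.le, min_eq_left (by linarith : (0 : ℝ) ≤ 1 - e)] at a0
  rw [min_eq_right (by linarith : e ≤ 1), min_eq_right (by linarith : 1 - e ≤ 1)] at a1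
  rw [min_self, min_eq_left (by linarith : e ≤ 1 - e)] at a2
  rw [min_self, min_eq_right (by linarith : e ≤ 1 - e)] at a3
  have b0 : p 0 = m 0 := by linarith
  have b1 : p 1 = m 1 := by linarith
  rw [b0, b1] at a2 a3
  have c2 : (p 2 - m 2) * (1 - e) + (p 3 - m 3) * e = 0 := by
    have : e * ((p 2 - m 2) * (1 - e) + (p 3 - m 3) * e) = 0 := by linear_combination a2
    exact (mul_eq_zero.1 this).resolve_left h0.ne'
  have c3 : (p 2 - m 2) * e + (p 3 - m 3) * (1 - e) = 0 := by
    have : e * ((p 2 - m 2) * e + (p 3 - m 3) * (1 - e)) = 0 := by linear_combination a3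
    exact (mul_eq_zero.1 this).resolve_left h0.ne'
  have d : (p 2 - m 2) * (1 - 2 * e) = 0 := by linear_combination (1 - e) * c2 - e * c3
  have d2 : p 2 - m 2 = 0 := (mul_eq_zero.1 d).resolve_right (by linarith)
  have d3' : (p 3 - m 3) * e = 0 := by rw [d2] at c2; linarith
  have d3 : p 3 - m 3 = 0 := (mul_eq_zero.1 d3').resolve_right h0.ne'
  funext i
  fin_cases i
  · exact b0
  · exact b1
  · exact sub_eq_zero.1 d2
  · exact sub_eq_zero.1 d3

theorem dua_core {e : ℝ} (h0 : 0 < e) (h1 : e < 1 / 2) {A : Finset (Fin 4)}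
    (hA : (1 : Fin 4) ∈ A) {mu p : Fin 4 → ℝ} (hmu : PA A mu) (hp : NN A p)
    (hs : ∑ i, p i * Hm e mu i = 1)
    (hnu : ∀ nu : Fin 4 → ℝ, PA A nu →
      Ph e nu - Ph e mu ≤ (∑ i, p i * Hm e nu i) - 1) : p = mu := by
  have h1' : e < 1 := by linarith
  set nu : Fin 4 → ℝ := fun i => (mu i + p i) / 2 with hnudef
  have hPn : PA A nu := by
    refine ⟨fun i hi => ?_, fun i hi => ?_⟩
    · have := hmu.1 i hi
      have := hp.nn i
      simp only [hnudef]
      linarith
    · simp only [hnudef]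
      rw [hmu.2 i hi, hp.off i hi]
      norm_num
  have hfn : ∀ t, fm e nu t = (fm e mu t + fm e p t) / 2 := by
    intro t
    simp only [fm_eq, hnudef]
    ring
  have i1 := int_quo h0 h1' hA hmu hp
  have i2 := int_quo h0 h1' hA hPn hp
  have q1 := quo_int h0 h1' hA hmu hp
  have q2 := quo_int h0 h1' hA hPn hp
  have l1 := int_log h0 h1' hA hmu
  have l2 := int_log h0 h1' hA hPn
  rw [hs] at q1
  have hone : ∫ _ in (0:ℝ)..1, (1 : ℝ) = 1 := by simp
  have ic : IntervalIntegrable (fun _ : ℝ => (1 : ℝ)) volume 0 1 := intervalIntegrable_const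
  -- the entropy does not decrease
  have hPh : 0 ≤ Ph e nu - Ph e mu := by
    have hle : ∫ t in (0:ℝ)..1, (Real.log (fm e nu t) - Real.log (fm e mu t)) ≤
        ∫ t in (0:ℝ)..1, (1 / 2 : ℝ) * (fm e p t / fm e mu t - 1) := by
      refine intervalIntegral.integral_mono_on_of_le_Ioo zero_le_one (l2.sub l1)
        ((i1.sub ic).const_mul _) fun t ht => ?_
      have p1 := fm_pos h0 h1' hA hmu ht.1 ht.2.le
      have p2 := fm_pos h0 h1' hA hPn ht.1 ht.2.le
      rw [← Real.log_div p2.ne' p1.ne']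
      have h3 := Real.log_le_sub_one_of_pos (div_pos p2 p1)
      have h4 : fm e nu t / fm e mu t - 1 = (1 / 2 : ℝ) * (fm e p t / fm e mu t - 1) := by
        rw [hfn]
        field_simp
        ring
      linarith
    rw [intervalIntegral.integral_sub l2 l1, intervalIntegral.integral_const_mul,
      intervalIntegral.integral_sub i1 ic, q1, hone] at hle
    unfold Ph
    linarith
  -- the square
  set w : ℝ → ℝ := fun t => (fm e p t / fm e mu t - 1) - 2 * (fm e p t / fm e nu t - 1) with hw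
  have hwi : IntervalIntegrable w volume 0 1 := (i1.sub ic).sub ((i2.sub ic).const_mul 2)
  have hwv : ∫ t in (0:ℝ)..1, w t ≤ 0 := by
    have e1 : ∫ t in (0:ℝ)..1, w t = (1 - 1) - 2 * ((∑ i, p i * Hm e nu i) - 1) := by
      simp only [hw]
      rw [intervalIntegral.integral_sub (i1.sub ic) ((i2.sub ic).const_mul 2),
        intervalIntegral.integral_const_mul, intervalIntegral.integral_sub i1 ic,
        intervalIntegral.integral_sub i2 ic, q1, q2, hone]
    rw [e1]
    have := hnu nu hPn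
    linarith
  have hwe : ∀ t, 0 < t → t ≤ 1 → w t =
      (fm e p t - fm e mu t) ^ 2 / (fm e mu t * (fm e mu t + fm e p t)) := by
    intro t ht0 ht1
    have p1 := fm_pos h0 h1' hA hmu ht0 ht1
    have p3 := fm_nonneg h0 h1' hp ht0.le ht1
    have p4 : fm e mu t + fm e p t ≠ 0 := by positivity
    simp only [hw]
    rw [hfn]
    field_simp
    ring
  have hw0 : ∀ t, 0 < t → t ≤ 1 → 0 ≤ w t := by
    intro t ht0 ht1
    have p1 := fm_pos h0 h1' hA hmu ht0 ht1
    have p3 := fm_nonneg h0 h1' hp ht0.le ht1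
    rw [hwe t ht0 ht1]
    positivity
  have hwz : ∫ t in (0:ℝ)..1, w t = 0 := by
    refine le_antisymm hwv ?_
    rw [intervalIntegral.integral_of_le zero_le_one]
    refine setIntegral_nonneg measurableSet_Ioc fun t ht => hw0 t ht.1 ht.2
  have hae : w =ᵐ[volume.restrict (Ioc (0:ℝ) 1)] 0 := by
    rw [intervalIntegral.integral_of_le zero_le_one] at hwz
    refine (setIntegral_eq_zero_iff_of_nonneg_ae ?_ ?_).1 hwz
    · filter_upwards [ae_restrict_mem measurableSet_Ioc] with t ht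
      exact hw0 t ht.1 ht.2
    · exact (intervalIntegrable_iff_integrableOn_Ioc_of_le zero_le_one).1 hwi
  have hae' : w =ᵐ[volume.restrict (Ioo (0:ℝ) 1)] 0 :=
    ae_restrict_of_ae_restrict_of_subset Ioo_subset_Ioc_self hae
  have hcont : ContinuousOn w (Ioo (0:ℝ) 1) := by
    have c1 : ContinuousOn (fun t => fm e p t / fm e mu t) (Ioo (0:ℝ) 1) :=
      (fm_cont e p).continuousOn.div (fm_cont e mu).continuousOn fun t ht =>
        (fm_pos h0 h1' hA hmu ht.1 ht.2.le).ne'
    have c2 : ContinuousOn (fun t => fm e p t / fm e nu t) (Ioo (0:ℝ) 1) :=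
      (fm_cont e p).continuousOn.div (fm_cont e nu).continuousOn fun t ht =>
        (fm_pos h0 h1' hA hPn ht.1 ht.2.le).ne'
    exact (c1.sub continuousOn_const).sub (continuousOn_const.mul (c2.sub continuousOn_const))
  have heq : EqOn w 0 (Ioo (0:ℝ) 1) :=
    Measure.eqOn_open_of_ae_eq hae' isOpen_Ioo hcont continuousOn_const
  have hff : EqOn (fm e p) (fm e mu) (Ioo (0:ℝ) 1) := by
    intro t ht
    have h2 := heq ht
    rw [hwe t ht.1 ht.2.le] at h2
    have p1 := fm_pos h0 h1' hA hmu ht.1 ht.2.le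
    have p3 := fm_nonneg h0 h1' hp ht.1.le ht.2.le
    have p4 : fm e mu t * (fm e mu t + fm e p t) ≠ 0 := by positivity
    have h3 := (div_eq_zero_iff.1 h2).resolve_right p4
    have h4 := pow_eq_zero_iff (two_ne_zero) |>.1 h3
    linarith
  have hcl := hff.closure (fm_cont e p) (fm_cont e mu)
  rw [closure_Ioo zero_ne_one] at hcl
  exact fm_inj h0 h1 hcl

theorem dua : DuaStmt := by
  intro k hk A hA mu p hmu hp0 hp1 hs hnu
  have hk0 : (0 : ℝ) < k := by exact_mod_cast (by omega : 0 < k)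
  have h0 : (0 : ℝ) < 1 / k := by positivity
  have h1 : (1 : ℝ) / k < 1 / 2 := by
    apply one_div_lt_one_div_of_lt (by norm_num)
    exact_mod_cast (by omega : 2 < k)
  have hA1 : (1 : Fin 4) ∈ A := by
    rcases hA with rfl | rfl
    · decide
    · decide
  exact dua_core h0 h1 hA1 hmu ⟨hp0, hp1⟩ hs hnu

end Pool.Agent.PVD.M.H77
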